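import Pool.Agent.TH499.TF.Minor

set_option autoImplicit false

open Classical

/-! # The Kilakos-Shepherd conjecture for treewidth at most three and three colours -/

namespace Pool.Agent.Results.MP_564742_co.TreewidthThree

open Finset

/-- the indices of the branch sets: the two-element subsets of `{0, 1, 2, 3, 4}` other than
`{0, 1}` -/
abbrev Idx := {s : Finset (Fin 5) // s.card = 2 ∧ s ≠ {0, 1}}

/-- the Petersen graph without one vertex is a minor of the multigraph with edges `f e`: there are
disjoint connected sets of vertices, one for each two-element subset of `{0, 1, 2, 3, 4}` other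
than `{0, 1}`, and the sets for disjoint subsets are joined by an edge -/
def HasPetersenMinusVertexMinor {V E : Type} (f : E → Sym2 V) : Prop :=
  ∃ B : Idx → Set V,
    (∀ i j, i ≠ j → Disjoint (B i) (B j)) ∧
    (∀ i, ((SimpleGraph.fromEdgeSet (Set.range f)).induce (B i)).Connected) ∧
    (∀ i j : Idx, Disjoint i.1 j.1 →
      ∃ (e : E) (x y : V), x ∈ B i ∧ y ∈ B j ∧ f e = s(x, y))

/-- tree decomposition, with bags `bag i` for the nodes `i` of the tree `T` -/
def IsTreeDecomposition {V E ι : Type} (f : E → Sym2 V) (T : SimpleGraph ι)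
    (bag : ι → Finset V) : Prop :=
  T.IsTree ∧ (∀ v, ∃ i, v ∈ bag i) ∧ (∀ e, ∃ i, ∀ v ∈ f e, v ∈ bag i) ∧
    ∀ (i j : ι) (p : T.Walk i j), p.IsPath → ∀ k ∈ p.support, ∀ v, v ∈ bag i → v ∈ bag j →
      v ∈ bag k

/-- the treewidth is at most `k` -/
def TreewidthLE {V E : Type} (f : E → Sym2 V) (k : ℕ) : Prop :=
  ∃ (ι : Type) (_ : Fintype ι) (T : SimpleGraph ι) (bag : ι → Finset V),
    IsTreeDecomposition f T bag ∧ ∀ i, (bag i).card ≤ k + 1

/-- the maximum degree -/
noncomputable def maxDeg {V E : Type} [Fintype V] [Fintype E] (f : E → Sym2 V) : ℕ :=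
  univ.sup (fun v : V => (univ.filter (fun e : E => v ∈ f e)).card)

/-- the maximum of `⌈2 |E(S)| / (|S| - 1)⌉` over the odd sets `S` with at least three vertices,
where `E(S)` is the set of edges with both ends in `S` -/
noncomputable def oddDensity {V E : Type} [Fintype V] [Fintype E] (f : E → Sym2 V) : ℕ :=
  (univ.filter (fun S : Finset V => Odd S.card ∧ 3 ≤ S.card)).sup
    (fun S => ⌈((2 * (univ.filter (fun e : E => ∀ v ∈ f e, v ∈ S)).card : ℕ) : ℚ)
      / ((S.card : ℚ) - 1)⌉₊)

/-- **Theorem.** Let `G` be a loopless multigraph of treewidth at most three of which the Petersen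
graph without one vertex is not a minor. If the maximum degree and the odd density `w` are at most
three, then `G` has a proper edge-colouring with three colours. -/
theorem result (V E : Type) [Fintype V] [Fintype E] (f : E → Sym2 V)
    (hloop : ∀ e, ¬ (f e).IsDiag) (hP : ¬ HasPetersenMinusVertexMinor f)
    (hT : TreewidthLE f 3) (hdw : max (maxDeg f) (oddDensity f) ≤ 3) :
    ∃ c : E → Fin 3, ∀ e₁ e₂ : E, e₁ ≠ e₂ → (∃ v, v ∈ f e₁ ∧ v ∈ f e₂) → c e₁ ≠ c e₂ := by
  set dg : V → ℕ := fun v => (univ.filter (fun e : E => v ∈ f e)).card with hdg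
  have hdeg : ∀ v, dg v ≤ 3 := fun v =>
    (le_sup (f := fun v : V => (univ.filter (fun e : E => v ∈ f e)).card) (mem_univ v)).trans
      ((le_max_left _ _).trans hdw)
  -- the graph with a new vertex joined to all vertices of degree less than three
  let src : E ⊕ (Σ v : V, Fin (3 - dg v)) → Option V :=
    Sum.elim (fun e => some (Quot.out (f e)).1) (fun _ => none)
  let dst : E ⊕ (Σ v : V, Fin (3 - dg v)) → Option V :=
    Sum.elim (fun e => some (Quot.out (f e)).2) (fun w => some w.1)
  have hl : ∀ e : E, ∃ p q, p ≠ q ∧ f e = s(p, q) ∧ src (Sum.inl e) = some p ∧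
      dst (Sum.inl e) = some q := by
    intro e
    have h1 : f e = s((Quot.out (f e)).1, (Quot.out (f e)).2) := (Quot.out_eq (f e)).symm
    refine ⟨_, _, ?_, h1, rfl, rfl⟩
    intro h
    apply hloop e
    rw [h1, Sym2.mk_isDiag_iff]
    exact h
  have hr1 : ∀ w, src (Sum.inr w) = none := fun _ => rfl
  have hr2 : ∀ w, dst (Sum.inr w) = some w.1 := fun _ => rfl
  -- every old vertex has degree three
  have hthree : ∀ v : V, ∑ x, ((if src x = some v then 1 else 0) +
      (if dst x = some v then 1 else 0)) = 3 := by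
    intro v
    rw [Fintype.sum_sum_type, Fintype.sum_sigma]
    have h1 : ∀ e : E, ((if src (Sum.inl e) = some v then 1 else 0) +
        (if dst (Sum.inl e) = some v then 1 else 0)) = if v ∈ f e then 1 else 0 := by
      intro e
      obtain ⟨p, q, hpq, h3, h4, h5⟩ := hl e
      rw [h4, h5, h3]
      by_cases hp : p = v
      · subst hp
        simp [hpq.symm]
      · by_cases hq : q = v
        · subst hq
          simp [hpq]
        · have : ¬ v ∈ s(p, q) := by
            rw [Sym2.mem_iff]
            rintro (h | h)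
            · exact hp h.symm
            · exact hq h.symm
          simp [hp, hq, this]
    have h2 : ∀ w : V, ∑ y : Fin (3 - dg w), ((if src (Sum.inr ⟨w, y⟩) = some v then 1 else 0) +
        (if dst (Sum.inr ⟨w, y⟩) = some v then 1 else 0)) = if w = v then 3 - dg v else 0 := by
      intro w
      simp only [hr1, hr2]
      by_cases hw : w = v
      · subst hw; simp
      · simp [hw]
    simp only [h1, h2]
    rw [sum_ite_eq' univ v, if_pos (mem_univ v)]
    have h3 : ∑ e : E, (if v ∈ f e then 1 else 0) = dg v := by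
      rw [hdg]
      exact (card_filter _ _).symm
    rw [h3]
    have := hdeg v
    omega
  -- no cut with one edge
  have hcut0 : ∀ Y : Finset (Option V), none ∉ Y → (TH499.TF.dlt src dst Y).card ≠ 1 := by
    intro Y hY0 hY
    set Z : Finset V := univ.filter (fun v => some v ∈ Y) with hZ
    set m := (univ.filter (fun e : E => ∀ v ∈ f e, v ∈ Z)).card with hm
    have hcount : 3 * Z.card = 2 * m + 1 := by
      have h1 : ∑ v ∈ Z, ∑ x, ((if src x = some v then 1 else 0) +
          (if dst x = some v then 1 else 0)) = 3 * Z.card := by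
        rw [sum_congr rfl fun v _ => hthree v, sum_const, smul_eq_mul, mul_comm]
      rw [← h1, sum_comm]
      have h2 : ∀ x, ∑ v ∈ Z, ((if src x = some v then 1 else 0) +
          (if dst x = some v then 1 else 0)) =
          2 * (if (src x ∈ Y ∧ dst x ∈ Y) then 1 else 0) +
            (if x ∈ TH499.TF.dlt src dst Y then 1 else 0) := by
        intro x
        have h3 : ∀ o : Option V, ∑ v ∈ Z, (if o = some v then 1 else 0) =
            if o ∈ Y then 1 else 0 := by
          intro o
          cases o with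
          | none => simp [hY0]
          | some a =>
            simp only [Option.some_inj]
            rw [sum_ite_eq]
            simp [hZ]
        rw [sum_add_distrib, h3, h3]
        simp only [TH499.TF.mem_dlt]
        by_cases ha : src x ∈ Y <;> by_cases hb : dst x ∈ Y <;> simp [ha, hb]
      rw [sum_congr rfl fun x _ => h2 x, sum_add_distrib, ← mul_sum]
      congr 1
      · congr 1
        rw [Fintype.sum_sum_type]
        have h4 : ∑ x : (Σ v : V, Fin (3 - dg v)),
            (if (src (Sum.inr x) ∈ Y ∧ dst (Sum.inr x) ∈ Y) then 1 else 0) = 0 := by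
          apply sum_eq_zero
          intro x _
          rw [hr1, if_neg]
          exact fun h => hY0 h.1
        rw [h4, add_zero, hm, card_filter]
        refine sum_congr rfl fun e _ => ?_
        obtain ⟨p, q, hpq, h5, h6, h7⟩ := hl e
        rw [h6, h7, h5]
        simp [hZ]
      · rw [← card_filter, filter_univ_mem, hY]
    have hpos : 1 ≤ Z.card := by omega
    have hodd : Odd Z.card := by
      rw [Nat.odd_iff]; omega
    rcases Nat.lt_or_ge Z.card 3 with h3 | h3
    · have hZ1 : Z.card = 1 := by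
        rw [Nat.odd_iff] at hodd; omega
      have hm1 : m = 1 := by omega
      obtain ⟨v, hv⟩ := card_eq_one.mp hZ1
      rw [hm, card_eq_one] at hm1
      obtain ⟨e, he⟩ := hm1
      have h4 : e ∈ univ.filter (fun e : E => ∀ v ∈ f e, v ∈ Z) := by
        rw [he]; exact mem_singleton_self _
      obtain ⟨p, q, hpq, h5, _, _⟩ := hl e
      have h6 := (mem_filter.mp h4).2
      rw [h5, hv] at h6
      have h7 := mem_singleton.mp (h6 p (Sym2.mem_mk_left p q))
      have h8 := mem_singleton.mp (h6 q (Sym2.mem_mk_right p q))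
      exact hpq (h7.trans h8.symm)
    · have h4 := le_sup (f := fun S : Finset V =>
        ⌈((2 * (univ.filter (fun e : E => ∀ v ∈ f e, v ∈ S)).card : ℕ) : ℚ)
          / ((S.card : ℚ) - 1)⌉₊) (mem_filter.mpr ⟨mem_univ Z, hodd, h3⟩ :
          Z ∈ univ.filter (fun S : Finset V => Odd S.card ∧ 3 ≤ S.card))
      have h5 := h4.trans ((le_max_right _ _).trans hdw)
      rw [Nat.ceil_le] at h5
      have h6 : (0 : ℚ) < (Z.card : ℚ) - 1 := by
        have : (3 : ℚ) ≤ (Z.card : ℚ) := by exact_mod_cast h3
        linarith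
      rw [div_le_iff₀ h6] at h5
      have h7 : (3 : ℚ) * (Z.card : ℚ) = 2 * (m : ℚ) + 1 := by exact_mod_cast hcount
      rw [← hm] at h5
      push_cast at h5
      linarith
  have hcut : ∀ Y, (TH499.TF.dlt src dst Y).card ≠ 1 := by
    intro Y
    by_cases hY : none ∈ Y
    · have h1 : TH499.TF.dlt src dst Y = TH499.TF.dlt src dst Yᶜ := by
        ext e
        rw [TH499.TF.mem_dlt, TH499.TF.mem_dlt, mem_compl, mem_compl, not_iff_not]
        exact not_iff_not.symm
      rw [h1]
      exact hcut0 _ (fun h => (mem_compl.mp h) hY)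
    · exact hcut0 _ hY
  -- no Petersen minor
  have hPM : ¬ TH499.TF.PM src dst := by
    rintro ⟨S, h1, hd, h3⟩
    apply hP
    obtain ⟨i0, hi0⟩ : ∃ i0 : TH499.TF.Pr, ∀ i, none ∈ S i → i = i0 := by
      by_cases hex : ∃ i, none ∈ S i
      · obtain ⟨i, hi⟩ := hex
        refine ⟨i, fun j hj => ?_⟩
        by_contra hij
        exact disjoint_left.mp (hd j i hij) hj hi
      · exact ⟨⟨{0, 1}, rfl⟩, fun i hi => absurd ⟨i, hi⟩ hex⟩
    obtain ⟨σ, hσ⟩ : ∃ σ : Equiv.Perm (Fin 5), i0.1 = ({0, 1} : Finset (Fin 5)).map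
        σ.toEmbedding := by
      obtain ⟨a, b, hab, hi⟩ := card_eq_two.mp i0.2
      refine ⟨(Equiv.swap 1 (Equiv.swap 0 a b)).trans (Equiv.swap 0 a), ?_⟩
      rw [hi]
      clear hi
      clear * - hab
      revert a b
      decide
    let t : Idx → TH499.TF.Pr := fun s => ⟨s.1.map σ.toEmbedding, by rw [card_map]; exact s.2.1⟩
    have ht0 : ∀ s, t s ≠ i0 := by
      intro s h
      apply s.2.2
      have h4 : s.1.map σ.toEmbedding = ({0, 1} : Finset (Fin 5)).map σ.toEmbedding := by
        rw [← hσ, ← h]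
      exact map_injective _ h4
    have htinj : ∀ s s', s ≠ s' → t s ≠ t s' := by
      intro s s' h h4
      apply h
      apply Subtype.ext
      exact map_injective σ.toEmbedding (congrArg Subtype.val h4)
    have hnone : ∀ s, none ∉ S (t s) := fun s h => ht0 s (hi0 _ h)
    have hjn : ∀ e x y, TH499.TF.Joins src dst e (some x) (some y) → x ≠ y ∧
        ∃ e', f e' = s(x, y) := by
      intro e x y hj
      rcases e with e | w
      · obtain ⟨p, q, hpq, h3, h4, h5⟩ := hl e
        unfold TH499.TF.Joins at hj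
        rw [h4, h5] at hj
        rcases hj with ⟨h6, h7⟩ | ⟨h6, h7⟩
        · rw [← Option.some_injective _ h6, ← Option.some_injective _ h7]; exact ⟨hpq, e, h3⟩
        · rw [← Option.some_injective _ h6, ← Option.some_injective _ h7]
          exact ⟨hpq.symm, e, h3.trans Sym2.eq_swap⟩
      · unfold TH499.TF.Joins at hj
        rw [hr1] at hj
        rcases hj with ⟨h6, _⟩ | ⟨h6, _⟩ <;> exact absurd h6 (by simp)
    have hne : ∀ i, (S i).Nonempty := by
      intro i
      obtain ⟨j, hj⟩ : ∃ j : TH499.TF.Pr, Disjoint i.1 j.1 := by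
        clear * -
        revert i; decide
      obtain ⟨e, x, y, hx, _⟩ := h3 i j hj
      exact ⟨x, hx⟩
    refine ⟨fun s => {x | some x ∈ S (t s)}, ?_, ?_, ?_⟩
    · intro s s' hss
      rw [Set.disjoint_left]
      intro x hx hx'
      exact disjoint_left.mp (hd _ _ (htinj s s' hss)) hx hx'
    · intro s
      obtain ⟨x0', hx0'⟩ := hne (t s)
      obtain ⟨x0, rfl⟩ : ∃ x0, x0' = some x0 := by
        cases x0' with
        | none => exact absurd hx0' (hnone s)
        | some x0 => exact ⟨x0, rfl⟩
      rw [SimpleGraph.connected_iff_exists_forall_reachable]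
      refine ⟨⟨x0, hx0'⟩, ?_⟩
      by_contra hcon
      push Not at hcon
      obtain ⟨⟨y0, hy0⟩, hy1⟩ := hcon
      obtain ⟨e, a', b', ha, hb, hbA, hj⟩ := h1 (t s)
        ((S (t s)).filter (fun z => ∃ x, z = some x ∧ ∃ h : x ∈ {x | some x ∈ S (t s)},
          ((SimpleGraph.fromEdgeSet (Set.range f)).induce {x | some x ∈ S (t s)}).Reachable
            ⟨x0, hx0'⟩ ⟨x, h⟩))
        (filter_subset _ _)
        ⟨some x0, mem_filter.mpr ⟨hx0', x0, rfl, hx0', SimpleGraph.Reachable.refl _⟩⟩
        (fun h => by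
          have h4 : some y0 ∈ (S (t s)).filter (fun z => ∃ x, z = some x ∧
              ∃ h : x ∈ {x | some x ∈ S (t s)},
              ((SimpleGraph.fromEdgeSet (Set.range f)).induce {x | some x ∈ S (t s)}).Reachable
                ⟨x0, hx0'⟩ ⟨x, h⟩) := by
            rw [h]; exact hy0
          obtain ⟨_, y1, h5, h6, h7⟩ := mem_filter.mp h4
          have h8 : y0 = y1 := Option.some_injective _ h5
          subst h8
          exact hy1 h7)
      obtain ⟨ha1, a, rfl, ha2, ha3⟩ := mem_filter.mp ha
      obtain ⟨b, rfl⟩ : ∃ b, b' = some b := by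
        cases b' with
        | none => exact absurd hb (hnone s)
        | some b => exact ⟨b, rfl⟩
      apply hbA
      refine mem_filter.mpr ⟨hb, b, rfl, hb, ha3.trans ?_⟩
      apply SimpleGraph.Adj.reachable
      obtain ⟨hab, e', he'⟩ := hjn e a b hj
      show (SimpleGraph.fromEdgeSet (Set.range f)).Adj a b
      rw [SimpleGraph.fromEdgeSet_adj]
      exact ⟨⟨e', he'⟩, hab⟩
    · intro s s' hss
      obtain ⟨e, x', y', hx, hy, hj⟩ := h3 (t s) (t s') ((disjoint_map σ.toEmbedding).mpr hss)
      obtain ⟨x, rfl⟩ : ∃ x, x' = some x := by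
        cases x' with
        | none => exact absurd hx (hnone s)
        | some x => exact ⟨x, rfl⟩
      obtain ⟨y, rfl⟩ : ∃ y, y' = some y := by
        cases y' with
        | none => exact absurd hy (hnone s')
        | some y => exact ⟨y, rfl⟩
      obtain ⟨_, e', he'⟩ := hjn e x y hj
      exact ⟨e', x, y, hx, hy, he'⟩
  -- tree decomposition
  obtain ⟨ι, _, T, bag, ⟨t1, t0, t2, t3⟩, t4⟩ := hT
  have hTD : TH499.TF.HasTD 5 src dst := by
    refine TH499.TF.HasTD.of_tree (C := fun i => insertNone (bag i)) t1 ?_ ?_ ?_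
    · intro i j p hp k hk v hi hj
      rw [mem_insertNone] at hi hj ⊢
      intro a ha
      exact t3 i j p hp k hk a (hi a ha) (hj a ha)
    · rintro (e | w)
      · obtain ⟨p, q, hpq, h3, h4, h5⟩ := hl e
        obtain ⟨i, hi⟩ := t2 e
        rw [h3] at hi
        refine ⟨i, ?_, ?_⟩
        · rw [h4]; exact some_mem_insertNone.mpr (hi p (Sym2.mem_mk_left p q))
        · rw [h5]; exact some_mem_insertNone.mpr (hi q (Sym2.mem_mk_right p q))
      · obtain ⟨i, hi⟩ := t0 w.1
        refine ⟨i, ?_, ?_⟩
        · rw [hr1]; exact none_mem_insertNone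
        · rw [hr2]; exact some_mem_insertNone.mpr hi
    · intro i
      rw [card_insertNone]
      have := t4 i
      omega
  obtain ⟨g, hg, hgd⟩ := TH499.TF.cls_nz _ src dst rfl ⟨hTD, hPM⟩ hcut
  -- the colouring
  let κ : TH499.TF.K → Fin 3 := fun a => if a = (1, 0) then 0 else if a = (0, 1) then 1 else 2
  have hκ : ∀ a b : TH499.TF.K, a ≠ 0 → b ≠ 0 → κ a = κ b → a = b := by
    have h0 : ∀ a : TH499.TF.K, a ≠ 0 → a = (1, 0) ∨ a = (0, 1) ∨ a = (1, 1) := by
      clear * -; decide
    intro a b ha hb
    have h01 : ((0, 1) : TH499.TF.K) ≠ (1, 0) := by decide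
    have h11 : ((1, 1) : TH499.TF.K) ≠ (1, 0) := by decide
    have h12 : ((1, 1) : TH499.TF.K) ≠ (0, 1) := by decide
    rcases h0 a ha with rfl | rfl | rfl <;> rcases h0 b hb with rfl | rfl | rfl <;>
      simp [κ, h01, h11, h12]
  refine ⟨fun e => κ (g (Sum.inl e)), ?_⟩
  rintro e₁ e₂ hne ⟨v, hv1, hv2⟩ hc
  have heq := hκ _ _ (hg _) (hg _) hc
  have hsum : ∑ e ∈ TH499.TF.dlt src dst {some v}, g e = 0 := by
    rw [← TH499.TF.sum_dv, sum_singleton]
    exact hgd _
  have hmem : ∀ e : E, v ∈ f e → (Sum.inl e : E ⊕ (Σ v : V, Fin (3 - dg v))) ∈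
      TH499.TF.dlt src dst {some v} := by
    intro e he
    obtain ⟨p, q, hpq, h3, h4, h5⟩ := hl e
    rw [h3, Sym2.mem_iff] at he
    rw [TH499.TF.mem_dlt, h4, h5, mem_singleton, mem_singleton, Option.some_inj, Option.some_inj]
    intro h
    rcases he with rfl | rfl
    · exact hpq (h.mp rfl).symm
    · exact hpq (h.mpr rfl)
  have hcard : (TH499.TF.dlt src dst {some v}).card = 3 := by
    refine Eq.trans ?_ (hthree v)
    rw [← filter_univ_mem (TH499.TF.dlt src dst {some v}), card_filter]
    refine sum_congr rfl fun x _ => ?_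
    simp only [TH499.TF.mem_dlt, mem_singleton]
    have hx : ¬ (src x = some v ∧ dst x = some v) := by
      rintro ⟨h6, h7⟩
      rcases x with e | w
      · obtain ⟨p, q, hpq, _, h4, h5⟩ := hl e
        rw [h4] at h6
        rw [h5] at h7
        exact hpq ((Option.some_injective _ h6).trans (Option.some_injective _ h7).symm)
      · rw [hr1] at h6
        exact absurd h6 (by simp)
    by_cases ha : src x = some v <;> by_cases hb : dst x = some v <;> simp [ha, hb]
    exact hx ⟨ha, hb⟩
  have hpair : ({Sum.inl e₁, Sum.inl e₂} : Finset (E ⊕ (Σ v : V, Fin (3 - dg v)))) ⊆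
      TH499.TF.dlt src dst {some v} := by
    intro x hx
    rw [mem_insert, mem_singleton] at hx
    rcases hx with rfl | rfl
    · exact hmem _ hv1
    · exact hmem _ hv2
  have hne' : (Sum.inl e₁ : E ⊕ (Σ v : V, Fin (3 - dg v))) ≠ Sum.inl e₂ :=
    fun h => hne (Sum.inl_injective h)
  have h1 : (TH499.TF.dlt src dst {some v} \
      ({Sum.inl e₁, Sum.inl e₂} : Finset (E ⊕ (Σ v : V, Fin (3 - dg v))))).card = 1 := by
    rw [card_sdiff_of_subset hpair, hcard, card_pair hne']
  obtain ⟨y, hy⟩ := card_eq_one.mp h1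
  rw [← sum_sdiff hpair, hy, sum_singleton, sum_pair hne', heq, TH499.TF.K_add_self,
    add_zero] at hsum
  exact hg _ hsum

end Pool.Agent.Results.MP_564742_co.TreewidthThree
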